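import Mathlib
import Pool.Agent.H20.Petrie.Defs
import Pool.Agent.H20.Petrie.DefsStar
import Pool.Agent.H20.Petrie.Classes
import Pool.Agent.H20.Petrie.Data
import Pool.Agent.H20.Petrie.StarPolygon

/-!
# Acoptic Petrie schemes for products, prisms and regular star-polytopes

`OnlyAcoptic P` says that all Petrie schemes of `P`, over all permutations of the ranks and all
flags, are acoptic.
-/

namespace Pool.Agent.Results.MP_7f6035_co.AcopticClasses

open Pool.Agent.H20.Petrie

/-- The answers for the four classes.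

(a) Products of cubes and crosspolytopes have only acoptic Petrie schemes.

(b) A product of cubes, crosspolytopes and `N`-gons with at least one cube or crosspolytope has only
acoptic Petrie schemes if and only if all the `N` are equal to 4. If all the `N` are divisible by 4,
then every face of rank 0 or 1 occurs in at most one flag of every Petrie scheme.

(c) The `N`-gonal prism, `N ≥ 3`, `N ≠ 4`, has a Petrie scheme that is not acoptic. If `4 ∤ N`, then
it even has a Petrie scheme in which a vertex occurs in two different flags.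

(d) All star polygons and the 14 regular star-polytopes of dimensions 3 and 4 have only acoptic
Petrie schemes. -/
theorem result :
    -- (a)
    (∀ (m : ℕ) (F : Fin m → Factor), (∀ j, (F j).Valid) → (∀ j N, F j ≠ .gon N) →
      OnlyAcoptic (prodOf F)) ∧
    -- (b)
    (∀ (m : ℕ) (F : Fin m → Factor), (∀ j, (F j).Valid) → (∃ j, ∀ N, F j ≠ .gon N) →
      (OnlyAcoptic (prodOf F) ↔ ∀ j N, F j = .gon N → N = 4)) ∧
    (∀ (m : ℕ) (F : Fin m → Factor), (∀ j, (F j).Valid) → (∀ j N, F j = .gon N → 4 ∣ N) →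
      ∀ π Φ, IsPetrie (prodOf F) π Φ → ∀ i : Fin (prodOf F).dim, (i : ℕ) ≤ 1 →
        AcopticIn (prodOf F) Φ i) ∧
    -- (c)
    (∀ N : ℕ, 3 ≤ N → N ≠ 4 → ¬ OnlyAcoptic (prodOf ![.cube 1, .gon N])) ∧
    (∀ A : Factor, A.Valid → (∀ N, A ≠ .gon N) → ∀ N : ℕ, 3 ≤ N → ¬ 4 ∣ N →
      ∃ (π : Equiv.Perm (Fin (prodOf ![A, .gon N]).dim))
        (Φ : ℤ → Fin (prodOf ![A, .gon N]).dim → (prodOf ![A, .gon N]).Face)
        (i : Fin (prodOf ![A, .gon N]).dim),
        IsPetrie (prodOf ![A, .gon N]) π Φ ∧ (i : ℕ) = 0 ∧ ¬ AcopticIn (prodOf ![A, .gon N]) Φ i) ∧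
    -- (d)
    (∀ q : ℚ, 2 < q → OnlyAcoptic (starPol [q])) ∧
    (∀ p ∈ ([[5 / 2, 5], [5, 5 / 2], [5 / 2, 3], [3, 5 / 2],
        [5 / 2, 5, 3], [3, 5, 5 / 2], [5, 5 / 2, 5], [5 / 2, 3, 5], [5, 3, 5 / 2],
        [5 / 2, 5, 5 / 2], [5, 5 / 2, 3], [3, 5 / 2, 5], [3, 3, 5 / 2], [5 / 2, 3, 3]] :
        List (List ℚ)), OnlyAcoptic (starPol p)) := by
  refine ⟨?_, ?_, ?_, ?_, ?_, ?_, ?_⟩
  · intro m F hF h
    exact onlyAcoptic_of_four F hF fun j N hj => absurd hj (h j N)
  · intro m F hF h
    exact onlyAcoptic_iff F hF h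
  · intro m F hF h π Φ hΦ i hi
    exact acopticIn_zero_one F hF h π Φ hΦ i hi
  · intro N hN h4 h
    have hF : ∀ j, ((![.cube 1, .gon N] : Fin 2 → Factor) j).Valid := fun j => by
      refine Fin.cases ?_ (fun j => Fin.cases ?_ (fun j => j.elim0) j) j
      · exact le_refl 1
      · exact hN
    exact h4 ((onlyAcoptic_iff _ hF ⟨0, fun N h => by cases h⟩).1 h 1 N rfl)
  · intro A hA hAg N hN h4
    exact exists_repeated_vertex A hA hAg hN h4
  · intro q hq
    exact onlyAcoptic_starPolygon q hq
  · intro p hp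
    simp only [List.mem_cons, List.not_mem_nil, or_false] at hp
    rcases hp with rfl | rfl | rfl | rfl | rfl | rfl | rfl | rfl | rfl | rfl | rfl | rfl | rfl | rfl
    · exact star0
    · exact star1
    · exact star2
    · exact star3
    · exact star4
    · exact star5
    · exact star6
    · exact star7
    · exact star8
    · exact star9
    · exact star10
    · exact star11
    · exact star12
    · exact star13

end Pool.Agent.Results.MP_7f6035_co.AcopticClasses
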